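import Mathlib

set_option autoImplicit false

/-! The least number of functional and transposed functional matrices covering a linear order. -/

namespace Pool.Agent.Results.MP_88b6d1_co.ExactValue

open Finset

/-- `A` is the matrix of a transformation `f`: `A i j = 1` iff `f i = j` -/
def IsTransformation {n : ℕ} (A : Matrix (Fin n) (Fin n) Bool) : Prop :=
  ∃ f : Fin n → Fin n, ∀ i j, A i j = true ↔ f i = j

/-- `A` is the transposed matrix of a transformation `f`: `A i j = 1` iff `f j = i` -/
def IsTransposed {n : ℕ} (A : Matrix (Fin n) (Fin n) Bool) : Prop :=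
  ∃ f : Fin n → Fin n, ∀ i j, A i j = true ↔ f j = i

/-- there are `k` matrices, each a transformation matrix or a transposed transformation matrix,
whose Boolean sum is `≥` the matrix of the linear order on `Fin n` -/
def Covers (n k : ℕ) : Prop :=
  ∃ A : Fin k → Matrix (Fin n) (Fin n) Bool,
    (∀ l, IsTransformation (A l) ∨ IsTransposed (A l)) ∧ ∀ i j, i ≤ j → ∃ l, A l i j = true

/-- strict pairs in a finite set of `Fin n` -/
lemma card_lt_pairs {n : ℕ} (I : Finset (Fin n)) :
    2 * ((I ×ˢ I).filter (fun p => p.2 < p.1)).card + I.card = I.card * I.card := by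
  have h1 : ((I ×ˢ I).filter (fun p => p.1 < p.2)).card =
      ((I ×ˢ I).filter (fun p => p.2 < p.1)).card := by
    apply Finset.card_bij (fun p _ => (p.2, p.1))
    · intro p hp
      simp only [mem_filter, mem_product] at hp ⊢
      exact ⟨⟨hp.1.2, hp.1.1⟩, hp.2⟩
    · intro p _ q _ h
      simp only [Prod.mk.injEq] at h
      exact Prod.ext h.2 h.1
    · intro p hp
      simp only [mem_filter, mem_product] at hp
      exact ⟨(p.2, p.1), by simp only [mem_filter, mem_product]; exact ⟨⟨hp.1.2, hp.1.1⟩, hp.2⟩, rfl⟩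
  have h2 : ((I ×ˢ I).filter (fun p => p.1 = p.2)).card = I.card := by
    symm
    apply Finset.card_bij (fun i _ => (i, i))
    · intro i hi; simp [hi]
    · intro i _ j _ h; exact (Prod.mk.inj h).1
    · intro p hp
      simp only [mem_filter, mem_product] at hp
      exact ⟨p.1, hp.1.1, Prod.ext rfl hp.2⟩
  have h3 : (I ×ˢ I) = ((I ×ˢ I).filter (fun p => p.1 < p.2)) ∪
      ((I ×ˢ I).filter (fun p => p.2 < p.1)) ∪ ((I ×ˢ I).filter (fun p => p.1 = p.2)) := by
    ext p
    simp only [mem_union, mem_filter]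
    constructor
    · intro h
      rcases lt_trichotomy p.1 p.2 with h' | h' | h'
      · exact Or.inl (Or.inl ⟨h, h'⟩)
      · exact Or.inr ⟨h, h'⟩
      · exact Or.inl (Or.inr ⟨h, h'⟩)
    · rintro ((h | h) | h) <;> exact h.1
  have h4 : (I ×ˢ I).card = I.card * I.card := Finset.card_product _ _
  rw [h3, Finset.card_union_of_disjoint, Finset.card_union_of_disjoint, h1, h2] at h4
  · omega
  · rw [Finset.disjoint_left]; intro p h h'
    simp only [mem_filter] at h h'
    exact absurd (h.2.trans h'.2) (lt_irrefl _)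
  · rw [Finset.disjoint_left]; intro p h h'
    simp only [mem_filter, mem_union] at h h'
    rcases h with h | h
    · exact absurd h'.2 h.2.ne
    · exact absurd h'.2 h.2.ne'

/-- pairs `i ≤ j` in `R × C` -/
lemma card_pairs {n : ℕ} (R C : Finset (Fin n)) :
    2 * ((R ×ˢ C).filter (fun p => p.1 ≤ p.2)).card + (R ∩ C).card * (R ∩ C).card ≤
      2 * (R.card * C.card) + (R ∩ C).card := by
  have h1 := card_lt_pairs (R ∩ C)
  have h2 : (((R ∩ C) ×ˢ (R ∩ C)).filter (fun p => p.2 < p.1)).card ≤
      ((R ×ˢ C).filter (fun p => ¬ p.1 ≤ p.2)).card := by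
    apply Finset.card_le_card
    intro p hp
    simp only [mem_filter, mem_product, mem_inter, not_le] at hp ⊢
    exact ⟨⟨hp.1.1.1, hp.1.2.2⟩, hp.2⟩
  have h3 := Finset.card_filter_add_card_filter_not (s := R ×ˢ C) (fun p : Fin n × Fin n => p.1 ≤ p.2)
  rw [Finset.card_product] at h3
  omega

/-- the arithmetic inequality behind the upper bound -/
lemma arith {n D a b r c I : ℤ} (hD : D * D ≤ 2 * n * n + 2 * n + 1) (hD2 : 2 * D ≤ 3 * n + 1)
    (hab : a + b = 2 * n + 1 - D) (hab' : a = b ∨ a = b + 1) (hr : 0 ≤ r) (hc : 0 ≤ c)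
    (hI : 0 ≤ I) (hIrc : r + c - n ≤ I) :
    2 * (r * c) + I ≤ 2 * (a * r + b * c) + I * I := by
  by_contra hlt
  push Not at hlt
  have hI2 : 0 ≤ I * (I - 1) := by
    rcases hI.eq_or_lt with h | h
    · rw [← h]; norm_num
    · exact mul_nonneg hI (by omega)
  by_cases hs : n ≤ r + c
  · have hI3 : (r + c - n) * (r + c - n - 1) ≤ I * (I - 1) := by
      rcases hs.eq_or_lt with h | h
      · rw [← h]; simpa using hI2
      · nlinarith
    rcases hab' with h | h
    · subst h
      have hD' : D = 2 * n + 1 - 2 * a := by linarith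
      subst hD'
      nlinarith [sq_nonneg (r - c), sq_nonneg (r + c - (2 * n + 1 - 2 * a))]
    · subst h
      have hD' : D = 2 * n - 2 * b := by linarith
      subst hD'
      obtain ⟨m, hm⟩ : ∃ m, I * (I - 1) = 2 * m := by
        have := Int.even_mul_pred_self I
        obtain ⟨m, hm⟩ := this
        exact ⟨m, by rw [hm]; ring⟩
      have hlt' : (b + 1) * r + b * c + m + 1 ≤ r * c := by
        have : 2 * ((b + 1) * r + b * c + m) < 2 * (r * c) := by nlinarith
        omega
      nlinarith [sq_nonneg (r - c + 1), sq_nonneg (r + c - (2 * n - 2 * b))]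
  · push Not at hs
    rcases hab' with h | h
    · subst h
      nlinarith [sq_nonneg (r - c), mul_nonneg (add_nonneg hr hc) (by linarith : 0 ≤ 2 * (a + a) - (r + c))]
    · subst h
      nlinarith [sq_nonneg (r - c + 1), mul_nonneg (add_nonneg hr hc) (by linarith : 0 ≤ 2 * (b + 1 + b) - (r + c))]

/-- the slots available to the pair `p` -/
def slots {n : ℕ} (a b : ℕ) (p : Fin n × Fin n) : Finset ((Fin n × Fin a) ⊕ (Fin n × Fin b)) :=
  (univ.filter (fun x : Fin n × Fin a => x.1 = p.1)).disjSum
    (univ.filter (fun x : Fin n × Fin b => x.1 = p.2))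

lemma hall {n a b : ℕ} (h : ∀ R C : Finset (Fin n),
    ((R ×ˢ C).filter (fun p => p.1 ≤ p.2)).card ≤ a * R.card + b * C.card) :
    ∃ f : {p : Fin n × Fin n // p.1 ≤ p.2} → (Fin n × Fin a) ⊕ (Fin n × Fin b),
      Function.Injective f ∧ ∀ p, f p ∈ slots a b p.1 := by
  classical
  rw [← Finset.all_card_le_biUnion_card_iff_exists_injective]
  intro S
  set R := S.image (fun p => p.1.1) with hR
  set C := S.image (fun p => p.1.2) with hC
  have h1 : S.card ≤ ((R ×ˢ C).filter (fun p => p.1 ≤ p.2)).card := by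
    rw [← Finset.card_image_of_injective S (Subtype.val_injective)]
    apply Finset.card_le_card
    intro p hp
    obtain ⟨q, hq, rfl⟩ := Finset.mem_image.1 hp
    simp only [mem_filter, mem_product]
    exact ⟨⟨Finset.mem_image_of_mem _ hq, Finset.mem_image_of_mem _ hq⟩, q.2⟩
  refine h1.trans ((h R C).trans ?_)
  have h2 : (R ×ˢ (univ : Finset (Fin a))).disjSum (C ×ˢ (univ : Finset (Fin b))) ⊆
      S.biUnion (fun p => slots a b p.1) := by
    intro x hx
    rw [Finset.mem_biUnion]
    rcases x with x | x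
    · rw [Finset.inl_mem_disjSum, mem_product] at hx
      obtain ⟨q, hq, hqx⟩ := Finset.mem_image.1 hx.1
      refine ⟨q, hq, ?_⟩
      simp [slots, hqx]
    · rw [Finset.inr_mem_disjSum, mem_product] at hx
      obtain ⟨q, hq, hqx⟩ := Finset.mem_image.1 hx.1
      refine ⟨q, hq, ?_⟩
      simp [slots, hqx]
  have h3 := Finset.card_le_card h2
  rw [Finset.card_disjSum, Finset.card_product, Finset.card_product, Finset.card_univ,
    Finset.card_univ, Fintype.card_fin, Fintype.card_fin] at h3
  rw [mul_comm a, mul_comm b]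
  exact h3

lemma covers_of_hall {n a b : ℕ} (h : ∃ f : {p : Fin n × Fin n // p.1 ≤ p.2} →
      (Fin n × Fin a) ⊕ (Fin n × Fin b),
      Function.Injective f ∧ ∀ p, f p ∈ slots a b p.1) : Covers n (a + b) := by
  classical
  obtain ⟨f, hf, hmem⟩ := h
  have hl : ∀ (p : {p : Fin n × Fin n // p.1 ≤ p.2}) (x : Fin n × Fin a), f p = Sum.inl x →
      x.1 = p.1.1 := by
    intro p x hx
    have := hmem p
    rw [hx, slots, Finset.inl_mem_disjSum] at this
    simpa using this
  have hr : ∀ (p : {p : Fin n × Fin n // p.1 ≤ p.2}) (x : Fin n × Fin b), f p = Sum.inr x →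
      x.1 = p.1.2 := by
    intro p x hx
    have := hmem p
    rw [hx, slots, Finset.inr_mem_disjSum] at this
    simpa using this
  -- the transformations
  let F : Fin a → Fin n → Fin n := fun x i =>
    if h : ∃ p : {p : Fin n × Fin n // p.1 ≤ p.2}, f p = Sum.inl (i, x) then h.choose.1.2 else i
  let G : Fin b → Fin n → Fin n := fun y j =>
    if h : ∃ p : {p : Fin n × Fin n // p.1 ≤ p.2}, f p = Sum.inr (j, y) then h.choose.1.1 else j
  have hF : ∀ (p : {p : Fin n × Fin n // p.1 ≤ p.2}) (x : Fin n × Fin a), f p = Sum.inl x →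
      F x.2 p.1.1 = p.1.2 := by
    intro p x hx
    have h1 := hl p x hx
    have h2 : ∃ q : {p : Fin n × Fin n // p.1 ≤ p.2}, f q = Sum.inl (p.1.1, x.2) :=
      ⟨p, by rw [hx, ← h1]⟩
    simp only [F]
    rw [dif_pos h2]
    have h3 := h2.choose_spec
    have h4 : f h2.choose = f p := by rw [h3, hx, ← h1]
    rw [hf h4]
  have hG : ∀ (p : {p : Fin n × Fin n // p.1 ≤ p.2}) (x : Fin n × Fin b), f p = Sum.inr x →
      G x.2 p.1.2 = p.1.1 := by
    intro p x hx
    have h1 := hr p x hx
    have h2 : ∃ q : {p : Fin n × Fin n // p.1 ≤ p.2}, f q = Sum.inr (p.1.2, x.2) :=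
      ⟨p, by rw [hx, ← h1]⟩
    simp only [G]
    rw [dif_pos h2]
    have h3 := h2.choose_spec
    have h4 : f h2.choose = f p := by rw [h3, hx, ← h1]
    rw [hf h4]
  let A : Fin (a + b) → Matrix (Fin n) (Fin n) Bool := fun l =>
    Fin.addCases (motive := fun _ => Matrix (Fin n) (Fin n) Bool)
      (fun x => Matrix.of (fun i j => decide (F x i = j)))
      (fun y => Matrix.of (fun i j => decide (G y j = i))) l
  have hAl : ∀ x, A (Fin.castAdd b x) = Matrix.of (fun i j => decide (F x i = j)) := by
    intro x; simp only [A]; rw [Fin.addCases_left]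
  have hAr : ∀ y, A (Fin.natAdd a y) = Matrix.of (fun i j => decide (G y j = i)) := by
    intro y; simp only [A]; rw [Fin.addCases_right]
  refine ⟨A, ?_, ?_⟩
  · intro l
    refine Fin.addCases (fun x => ?_) (fun y => ?_) l
    · left
      refine ⟨F x, fun i j => ?_⟩
      rw [hAl, Matrix.of_apply, decide_eq_true_iff]
    · right
      refine ⟨G y, fun i j => ?_⟩
      rw [hAr, Matrix.of_apply, decide_eq_true_iff]
  · intro i j hij
    rcases hx : f ⟨(i, j), hij⟩ with x | x
    · refine ⟨Fin.castAdd b x.2, ?_⟩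
      rw [hAl, Matrix.of_apply, decide_eq_true_iff]
      exact hF ⟨(i, j), hij⟩ x hx
    · refine ⟨Fin.natAdd a x.2, ?_⟩
      rw [hAr, Matrix.of_apply, decide_eq_true_iff]
      exact hG ⟨(i, j), hij⟩ x hx

lemma sqrt_bounds (n : ℕ) :
    Nat.sqrt (2 * n * n + 2 * n + 1) * Nat.sqrt (2 * n * n + 2 * n + 1) ≤ 2 * n * n + 2 * n + 1 ∧
    2 * n * n + 2 * n + 1 < (Nat.sqrt (2 * n * n + 2 * n + 1) + 1) *
      (Nat.sqrt (2 * n * n + 2 * n + 1) + 1) :=
  ⟨Nat.sqrt_le _, Nat.lt_succ_sqrt _⟩

lemma sqrt_le {n : ℕ} (hn : 1 ≤ n) : 2 * Nat.sqrt (2 * n * n + 2 * n + 1) ≤ 3 * n + 1 := by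
  obtain ⟨h1, -⟩ := sqrt_bounds n
  set D := Nat.sqrt (2 * n * n + 2 * n + 1)
  by_contra h
  push Not at h
  rcases Nat.lt_or_ge n 3 with h3 | h3
  · interval_cases n
    · nlinarith
    · nlinarith
  · nlinarith

theorem upper {n : ℕ} (hn : 1 ≤ n) : Covers n (2 * n + 1 - Nat.sqrt (2 * n * n + 2 * n + 1)) := by
  obtain ⟨h1, h2⟩ := sqrt_bounds n
  have h3 := sqrt_le hn
  set D := Nat.sqrt (2 * n * n + 2 * n + 1) with hD
  obtain ⟨a, b, hab, hab'⟩ : ∃ a b : ℕ, a + b = 2 * n + 1 - D ∧ (a = b ∨ a = b + 1) := by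
    rcases Nat.even_or_odd' (2 * n + 1 - D) with ⟨m, hm | hm⟩
    · exact ⟨m, m, by omega, Or.inl rfl⟩
    · exact ⟨m + 1, m, by omega, Or.inr rfl⟩
  rw [← hab]
  apply covers_of_hall
  apply hall
  intro R C
  have h4 := card_pairs R C
  have h5 : R.card + C.card ≤ n + (R ∩ C).card := by
    have h6 := Finset.card_union_add_card_inter R C
    have h7 : (R ∪ C).card ≤ n := by
      have := Finset.card_le_univ (R ∪ C)
      rwa [Fintype.card_fin] at this
    omega
  have h8 := arith (n := n) (D := D) (a := a) (b := b) (r := R.card) (c := C.card)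
    (I := (R ∩ C).card) (by exact_mod_cast h1) (by exact_mod_cast h3)
    (by have h7 : D ≤ 2 * n + 1 := by omega
        have h8 : a + b + D = 2 * n + 1 := by omega
        have h9 : ((a : ℤ) + b + D) = 2 * n + 1 := by exact_mod_cast h8
        linarith)
    (by rcases hab' with h | h
        · left; exact_mod_cast h
        · right; exact_mod_cast h)
    (by positivity) (by positivity) (by positivity)
    (by have h10 : ((R.card : ℤ) + C.card) ≤ n + (R ∩ C).card := by exact_mod_cast h5
        linarith)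
  have h9 : 2 * (R.card * C.card) + (R ∩ C).card ≤
      2 * (a * R.card + b * C.card) + (R ∩ C).card * (R ∩ C).card := by exact_mod_cast h8
  omega

/-- pairs `(i, j)`, `i ≤ j`, with `i < s` and `j ≥ n - s` -/
theorem lower {n k : ℕ} (hn : 1 ≤ n) (h : Covers n k) :
    2 * n + 1 - Nat.sqrt (2 * n * n + 2 * n + 1) ≤ k := by
  classical
  obtain ⟨h1, h2⟩ := sqrt_bounds n
  have h3 := sqrt_le hn
  set D := Nat.sqrt (2 * n * n + 2 * n + 1) with hD
  obtain ⟨A, hA, hcov⟩ := h
  have hDn : n ≤ D := by
    rw [hD, Nat.le_sqrt]; nlinarith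
  obtain ⟨s, hs⟩ : ∃ s, s = (D + 1) / 2 := ⟨_, rfl⟩
  have hsn : s ≤ n := by omega
  have hs2 : n ≤ 2 * s := by omega
  set R : Finset (Fin n) := Finset.univ.filter (fun i => (i : ℕ) < s) with hR
  set C : Finset (Fin n) := Finset.univ.filter (fun i => n - s ≤ (i : ℕ)) with hC
  have hRc : R.card = s := by
    have : R = (Finset.univ : Finset (Fin s)).map (Fin.castLEEmb hsn) := by
      ext i
      simp only [hR, mem_filter, mem_univ, true_and, mem_map]
      constructor
      · intro hi; exact ⟨⟨i, hi⟩, Fin.ext rfl⟩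
      · rintro ⟨j, rfl⟩; exact j.2
    rw [this, Finset.card_map, Finset.card_univ, Fintype.card_fin]
  have hCc : C.card = s := by
    have h10 : C.card = R.card := by
      apply Finset.card_bij (fun i _ => i.rev)
      · intro i hi
        simp only [hC, hR, mem_filter, mem_univ, true_and, Fin.val_rev] at hi ⊢
        have := i.2
        omega
      · intro i _ j _ hij; exact Fin.rev_injective hij
      · intro i hi
        refine ⟨i.rev, ?_, Fin.rev_rev i⟩
        simp only [hC, hR, mem_filter, mem_univ, true_and, Fin.val_rev] at hi ⊢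
        have := i.2
        omega
    rw [h10, hRc]
  have hIc : (R ∩ C).card = 2 * s - n := by
    have h11 := Finset.card_union_add_card_inter R C
    have h12 : R ∪ C = Finset.univ := by
      ext i
      simp only [hC, hR, mem_union, mem_filter, mem_univ, true_and, iff_true]
      omega
    rw [h12, Finset.card_univ, Fintype.card_fin, hRc, hCc] at h11
    omega
  -- the pairs with i > j in R × C all lie in (R ∩ C)²
  have hpairs : 2 * ((R ×ˢ C).filter (fun p => p.1 ≤ p.2)).card + (R ∩ C).card * (R ∩ C).card =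
      2 * (R.card * C.card) + (R ∩ C).card := by
    have g1 := card_lt_pairs (R ∩ C)
    have g2 : (((R ∩ C) ×ˢ (R ∩ C)).filter (fun p => p.2 < p.1)) =
        ((R ×ˢ C).filter (fun p => ¬ p.1 ≤ p.2)) := by
      ext p
      simp only [mem_filter, mem_product, mem_inter, not_le, hR, hC, mem_univ, true_and, Fin.lt_def]
      omega
    have g3 := Finset.card_filter_add_card_filter_not (s := R ×ˢ C)
      (fun p : Fin n × Fin n => p.1 ≤ p.2)
    rw [Finset.card_product, ← g2] at g3
    omega
  -- each matrix covers at most s of these pairs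
  have hone : ∀ l, ((R ×ˢ C).filter (fun p => A l p.1 p.2 = true)).card ≤ s := by
    intro l
    rcases hA l with ⟨f, hf⟩ | ⟨f, hf⟩
    · rw [← hRc]
      apply Finset.card_le_card_of_injOn (fun p => p.1)
      · intro p hp
        have hp' := Finset.mem_filter.1 (Finset.mem_coe.1 hp)
        exact (Finset.mem_product.1 hp'.1).1
      · intro p hp q hq hpq
        have hp' := (Finset.mem_filter.1 (Finset.mem_coe.1 hp)).2
        have hq' := (Finset.mem_filter.1 (Finset.mem_coe.1 hq)).2
        rw [hf] at hp' hq'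
        simp only at hpq
        exact Prod.ext hpq (by rw [← hp', ← hq', hpq])
    · rw [← hCc]
      apply Finset.card_le_card_of_injOn (fun p => p.2)
      · intro p hp
        have hp' := Finset.mem_filter.1 (Finset.mem_coe.1 hp)
        exact (Finset.mem_product.1 hp'.1).2
      · intro p hp q hq hpq
        have hp' := (Finset.mem_filter.1 (Finset.mem_coe.1 hp)).2
        have hq' := (Finset.mem_filter.1 (Finset.mem_coe.1 hq)).2
        rw [hf] at hp' hq'
        simp only at hpq
        exact Prod.ext (by rw [← hp', ← hq', hpq]) hpq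
  have htot : ((R ×ˢ C).filter (fun p => p.1 ≤ p.2)).card ≤ k * s := by
    have hsub : (R ×ˢ C).filter (fun p => p.1 ≤ p.2) ⊆
        (Finset.univ : Finset (Fin k)).biUnion
          (fun l => (R ×ˢ C).filter (fun p => A l p.1 p.2 = true)) := by
      intro p hp
      rw [Finset.mem_filter] at hp
      obtain ⟨l, hl⟩ := hcov p.1 p.2 hp.2
      rw [Finset.mem_biUnion]
      exact ⟨l, Finset.mem_univ _, Finset.mem_filter.2 ⟨hp.1, hl⟩⟩
    refine (Finset.card_le_card hsub).trans ?_
    refine Finset.card_biUnion_le.trans ?_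
    refine (Finset.sum_le_sum fun l _ => hone l).trans ?_
    simp
  rw [hRc, hCc, hIc] at hpairs
  by_contra hlt
  push Not at hlt
  -- k ≤ 2n - D
  have hkD : k + D ≤ 2 * n := by omega
  obtain ⟨t, ht⟩ : ∃ t, 2 * s = n + t := ⟨2 * s - n, by omega⟩
  have ht' : 2 * s - n = t := by omega
  rw [ht'] at hpairs
  -- 2 s (D + 1 - s) > n (n + 1)
  have hkey : n * (n + 1) < 2 * s * (D + 1 - s) := by
    rcases Nat.even_or_odd' (D + 1) with ⟨m, hm | hm⟩
    · have hsm : s = m := by omega
      subst hsm
      have : D + 1 - s = s := by omega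
      rw [this]
      rw [hm] at h2
      nlinarith
    · have hsm : s = m := by omega
      subst hsm
      have : D + 1 - s = s + 1 := by omega
      rw [this]
      rw [hm] at h2
      have h13 : 2 * n * n + 2 * n + 1 + 1 ≤ (2 * s + 1) * (2 * s + 1) := h2
      have h14 : (2 * n * n + 2 * n + 1 + 1) ≠ (2 * s + 1) * (2 * s + 1) := by
        intro h
        have h15 : (2 * n * n + 2 * n + 1 + 1) = 2 * (n * n + n + 1) := by ring
        have h16 : (2 * s + 1) * (2 * s + 1) = 2 * (2 * s * s + 2 * s) + 1 := by ring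
        omega
      have h17 := lt_of_le_of_ne h13 h14
      nlinarith
  have hDs : s ≤ D + 1 := by omega
  zify [hDs] at hkey hpairs htot hkD ht
  have hs0 : (0 : ℤ) ≤ s := by positivity
  have hkk : (k : ℤ) * s ≤ (2 * n - D) * s := by
    apply mul_le_mul_of_nonneg_right _ hs0; linarith
  have htt : (t : ℤ) = 2 * s - n := by linarith
  rw [htt] at hpairs
  nlinarith

/-- For all `n ≥ 1` the least number `m(n)` of transformation matrices and transposed
transformation matrices whose Boolean sum is at least the matrix of a linear order on `n` points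
is `2 n + 1 - ⌊√(2 n² + 2 n + 1)⌋`. -/
theorem result (n : ℕ) (hn : 1 ≤ n) :
    IsLeast {k : ℕ | Covers n k} (2 * n + 1 - Nat.sqrt (2 * n ^ 2 + 2 * n + 1)) := by
  have : 2 * n ^ 2 = 2 * n * n := by ring
  rw [this]
  exact ⟨upper hn, fun k hk => lower hn hk⟩

end Pool.Agent.Results.MP_88b6d1_co.ExactValue
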